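import Mathlib
import Pool.Agent.K7.H74.WS.Full
import Pool.Agent.K7.H74.AG.Stm

set_option autoImplicit false

/-! Project AG, job V2: the mean square of the exponential sum over the coefficient. Author: helper63. -/

namespace Pool.Agent.K7.H63.AG
open Finset MeasureTheory Complex
open Pool.Agent.K7.H74.WS (e S norm_e e_cont e_sub e_zero double_sum pow_add_ge)

lemma int_e {a b β : ℝ} (hβ : β ≠ 0) : ‖∫ t in a..b, e (t * β)‖ ≤ 1 / |β| := by
  have hc : ((2 * Real.pi * β : ℝ) : ℂ) * I ≠ 0 := by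
    apply mul_ne_zero _ I_ne_zero
    exact_mod_cast mul_ne_zero (by positivity) hβ
  have h1 : ∀ t : ℝ, e (t * β) = cexp ((((2 * Real.pi * β : ℝ) : ℂ) * I) * t) := by
    intro t
    unfold e
    congr 1
    push_cast
    ring
  simp_rw [h1]
  rw [integral_exp_mul_complex hc, norm_div]
  have h2 : ‖((2 * Real.pi * β : ℝ) : ℂ) * I‖ = 2 * Real.pi * |β| := by
    rw [norm_mul, Complex.norm_I, mul_one, Complex.norm_real, Real.norm_eq_abs, abs_mul,
      abs_of_pos (by positivity)]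
  rw [h2]
  have h3 : ‖cexp ((((2 * Real.pi * β : ℝ) : ℂ) * I) * b) - cexp ((((2 * Real.pi * β : ℝ) : ℂ) * I) * a)‖ ≤ 2 := by
    rw [← h1, ← h1]
    refine (norm_sub_le _ _).trans ?_
    rw [norm_e, norm_e]
    norm_num
  have hb : 0 < |β| := abs_pos.2 hβ
  have hpi := Real.pi_gt_three
  rw [div_le_div_iff₀ (by positivity) hb]
  nlinarith

theorem sec (n m P : ℕ) (hm : 1 ≤ m) (hP : 1 ≤ P) (α : ℝ) (hα : α ≠ 0) :
    ∫ a, ‖Pool.Agent.K7.H74.WS.S (n+2) P (α*a) 0‖^2 ∂(Pool.Agent.K7.H74.AG.seg m) ≤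
      2*P*m + 4 * (1 + Real.log (2 * P)) / (|α| * (P : ℝ) ^ n) := by
  have hP0 : (0 : ℝ) < P := by exact_mod_cast hP
  have hα0 : 0 < |α| := abs_pos.2 hα
  have hm1 : (1 : ℝ) ≤ m := by exact_mod_cast hm
  have hmm : 1 / (m : ℝ) ≤ m := by
    rw [div_le_iff₀ (by positivity)]
    nlinarith
  have h0 : ∫ a, ‖S (n+2) P (α*a) 0‖^2 ∂(Pool.Agent.K7.H74.AG.seg m) =
      ∫ a in (1 / (m : ℝ))..m, ‖S (n+2) P (α*a) 0‖^2 := by
    rw [intervalIntegral.integral_of_le hmm, ← integral_Icc_eq_integral_Ioc]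
    rfl
  rw [h0]
  set β : ℕ → ℕ → ℝ := fun x y => α * ((x : ℝ) ^ (n + 2) - (y : ℝ) ^ (n + 2)) with hβ
  set h : ℕ → ℕ → ℝ → ℂ := fun x y a => e (a * β x y) with hh
  have hhc : ∀ x y, Continuous (h x y) := fun x y => e_cont.comp (by fun_prop)
  have h1 : ∀ a : ℝ, ((‖S (n + 2) P (α * a) 0‖ ^ 2 : ℝ) : ℂ) =
      ∑ x ∈ Ico P (3 * P), ∑ y ∈ Ico P (3 * P), h x y a := by
    intro a
    push_cast
    rw [← Complex.mul_conj', S, map_sum, sum_mul_sum]
    apply sum_congr rfl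
    intro x _
    apply sum_congr rfl
    intro y _
    rw [hh]
    simp only
    rw [← e_sub]
    congr 1
    rw [hβ]
    simp only
    ring
  have h2 : ((∫ a in (1 / (m : ℝ))..m, ‖S (n + 2) P (α * a) 0‖ ^ 2 : ℝ) : ℂ) =
      ∑ x ∈ Ico P (3 * P), ∑ y ∈ Ico P (3 * P), ∫ a in (1 / (m : ℝ))..m, h x y a := by
    rw [← intervalIntegral.integral_ofReal]
    simp_rw [h1]
    rw [intervalIntegral.integral_finsetSum (fun x _ =>
      (continuous_finsetSum _ fun y _ => hhc x y).intervalIntegrable _ _)]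
    apply sum_congr rfl
    intro x _
    rw [intervalIntegral.integral_finsetSum (fun y _ => (hhc x y).intervalIntegrable _ _)]
  rw [double_sum] at h2
  have h3 : ‖∑ x ∈ Ico P (3 * P), ∫ a in (1 / (m : ℝ))..m, h x x a‖ ≤ 2 * P * m := by
    have e1 : ∀ x ∈ Ico P (3 * P), ‖∫ a in (1 / (m : ℝ))..m, h x x a‖ ≤ m := by
      intro x _
      have h5 := intervalIntegral.norm_integral_le_of_norm_le_const (a := 1 / (m : ℝ)) (b := (m : ℝ)) (C := (1 : ℝ))
        (f := h x x) (fun ξ _ => (norm_e _).le)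
      refine h5.trans ?_
      rw [abs_of_nonneg (by linarith)]
      have : 0 ≤ 1 / (m : ℝ) := by positivity
      linarith
    refine (norm_sum_le _ _).trans ((sum_le_sum e1).trans ?_)
    rw [sum_const, Nat.card_Ico, show 3 * P - P = 2 * P by omega, nsmul_eq_mul]
    push_cast
    exact le_refl _
  -- the pairs
  have hpair : ∀ D y : ℕ, 1 ≤ D → P ≤ y → |α| * (D * (P : ℝ) ^ (n + 1)) ≤ |β (y + D) y| := by
    intro D y hD hy
    have hD0 : (0 : ℝ) < D := by exact_mod_cast hD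
    have hy0 : (0 : ℝ) ≤ y := Nat.cast_nonneg _
    have hPy : (P : ℝ) ≤ y := by exact_mod_cast hy
    have h5 := pow_add_ge hy0 hD0.le (n + 1)
    have h6 : (P : ℝ) ^ (n + 1) ≤ (y : ℝ) ^ (n + 1) := pow_le_pow_left₀ hP0.le hPy _
    have h7 : (D : ℝ) * (P : ℝ) ^ (n + 1) ≤ ((y : ℝ) + D) ^ (n + 2) - (y : ℝ) ^ (n + 2) := by
      have h8 : (D : ℝ) * (P : ℝ) ^ (n + 1) ≤ D * (y : ℝ) ^ (n + 1) := mul_le_mul_of_nonneg_left h6 hD0.le
      have h9 : (0 : ℝ) ≤ D * (y : ℝ) ^ (n + 1) := by positivity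
      have h10 : (0 : ℝ) ≤ ((n + 1 : ℕ) : ℝ) * (D * (y : ℝ) ^ (n + 1)) := by positivity
      have e2 : n + 2 = n + 1 + 1 := rfl
      rw [e2]
      linarith
    rw [hβ]
    simp only
    rw [abs_mul]
    apply mul_le_mul_of_nonneg_left _ hα0.le
    refine le_trans ?_ (le_abs_self _)
    push_cast
    exact h7
  have hsym : ∀ x y : ℕ, |β x y| = |β y x| := by
    intro x y
    rw [hβ]
    simp only
    rw [abs_mul, abs_mul, abs_sub_comm]
  have h4 : ∀ D ∈ Ico 1 (3 * P - P), ‖∑ y ∈ Ico P (3 * P - D), ((∫ a in (1 / (m : ℝ))..m, h (y + D) y a) +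
      ∫ a in (1 / (m : ℝ))..m, h y (y + D) a)‖ ≤ 4 / (|α| * (P : ℝ) ^ n) * (1 / D) := by
    intro D hD
    rw [mem_Ico] at hD
    have hD1 : 1 ≤ D := hD.1
    have hD0 : (0 : ℝ) < D := by exact_mod_cast hD1
    have e1 : ∀ y ∈ Ico P (3 * P - D), ‖(∫ a in (1 / (m : ℝ))..m, h (y + D) y a) +
        ∫ a in (1 / (m : ℝ))..m, h y (y + D) a‖ ≤ 2 / (|α| * (D * (P : ℝ) ^ (n + 1))) := by
      intro y hy
      rw [mem_Ico] at hy
      have hb := hpair D y hD1 hy.1
      have hb0 : 0 < |α| * (D * (P : ℝ) ^ (n + 1)) := by positivity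
      have hb1 : 0 < |β (y + D) y| := lt_of_lt_of_le hb0 hb
      have hb2 : β (y + D) y ≠ 0 := abs_pos.1 hb1
      have hb3 : β y (y + D) ≠ 0 := by
        rw [← abs_pos, hsym]
        exact hb1
      have i1 : ‖∫ a in (1 / (m : ℝ))..m, h (y + D) y a‖ ≤ 1 / (|α| * (D * (P : ℝ) ^ (n + 1))) :=
        (int_e hb2).trans (one_div_le_one_div_of_le hb0 hb)
      have i2 : ‖∫ a in (1 / (m : ℝ))..m, h y (y + D) a‖ ≤ 1 / (|α| * (D * (P : ℝ) ^ (n + 1))) := by
        refine (int_e hb3).trans (one_div_le_one_div_of_le hb0 ?_)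
        rw [hsym]
        exact hb
      refine (norm_add_le _ _).trans ((add_le_add i1 i2).trans (le_of_eq ?_))
      ring
    refine (norm_sum_le _ _).trans ((sum_le_sum e1).trans ?_)
    rw [sum_const, Nat.card_Ico, nsmul_eq_mul]
    have e3 : ((3 * P - D - P : ℕ) : ℝ) ≤ 2 * P := by exact_mod_cast (by omega : 3 * P - D - P ≤ 2 * P)
    have e4 : (0 : ℝ) ≤ 2 / (|α| * (D * (P : ℝ) ^ (n + 1))) := by positivity
    refine (mul_le_mul_of_nonneg_right e3 e4).trans (le_of_eq ?_)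
    rw [pow_succ]
    field_simp
    norm_num
  have h5 : ‖((∫ a in (1 / (m : ℝ))..m, ‖S (n + 2) P (α * a) 0‖ ^ 2 : ℝ) : ℂ)‖ ≤
      2 * P * m + 4 / (|α| * (P : ℝ) ^ n) * (1 + Real.log (2 * P)) := by
    rw [h2]
    refine (norm_add_le _ _).trans ?_
    have e2 : ‖∑ D ∈ Ico 1 (3 * P - P), ∑ y ∈ Ico P (3 * P - D), ((∫ a in (1 / (m : ℝ))..m, h (y + D) y a) +
        ∫ a in (1 / (m : ℝ))..m, h y (y + D) a)‖ ≤ 4 / (|α| * (P : ℝ) ^ n) * (1 + Real.log (2 * P)) := by
      refine (norm_sum_le _ _).trans ((sum_le_sum h4).trans ?_)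
      rw [← mul_sum]
      apply mul_le_mul_of_nonneg_left _ (by positivity)
      have e3 : ∑ D ∈ Ico 1 (3 * P - P), 1 / (D : ℝ) ≤ ((harmonic (2 * P) : ℚ) : ℝ) := by
        rw [harmonic]
        push_cast
        rw [show 3 * P - P = 2 * P by omega, Finset.sum_Ico_eq_sum_range]
        have e4 : ∀ i ∈ range (2 * P - 1), 1 / (((1 + i : ℕ)) : ℝ) = ((i : ℝ) + 1)⁻¹ := by
          intro i _
          rw [one_div]
          congr 1
          push_cast
          ring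
        rw [sum_congr rfl e4]
        apply sum_le_sum_of_subset_of_nonneg
        · intro i hi
          rw [mem_range] at hi ⊢
          omega
        · intro i _ _
          positivity
      refine e3.trans ?_
      have := harmonic_le_one_add_log (2 * P)
      refine this.trans (le_of_eq ?_)
      push_cast
      rfl
    linarith
  rw [Complex.norm_real] at h5
  refine (le_abs_self _).trans (h5.trans (le_of_eq ?_))
  rw [div_mul_eq_mul_div]

end Pool.Agent.K7.H63.AG
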